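import Pool.Agent.H7.JB.Stmts

/-!
# Board jb14, row NBG: what is owed is less than the loss
-/

set_option autoImplicit false

open Finset

namespace Pool.JB7

open Pool.Agent.H23.KT Pool.Agent.H46.KW Pool.KQ Pool.GT7 Pool.GU7 Pool.HZ7

/-- The numerical part, `A = a ^ b`, `f = ph`. -/
theorem NBG_num (p : ℕ) (ε A N S1 T κ lo hi f s : ℝ)
    (hA : 0 < A) (hε : ε = 1 / (16 * ((p : ℝ) + 3) ^ 3))
    (h1 : (1 - ε) * A ≤ N) (h2 : N ≤ (1 + ε) * A) (h3 : S1 ≤ p * A + ε * A)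
    (h6 : κ ≤ S1 + ε * A) (hf0 : 0 < f) (hf1 : f < 1)
    (h7 : 3 * S1 + 1 / ((p : ℝ) + 3) * lo ≤ ((p : ℝ) + 2) * N +
      2 * (((p : ℝ) + 2) * (1 - f) * N + f * ((p : ℝ) + 2) * T))
    (h8 : ((p : ℝ) + 2) * hi ≤ S1) (h9 : hi + lo = N)
    (hs : s * (128 * ((p : ℝ) + 3) ^ 2) ≤ 1) :
    3 * κ - 2 * (((p : ℝ) + 2) * (1 - f) * A) - 2 * (((p : ℝ) + 2) * f * T) + 2 * (s * A) ≤
      ((p : ℝ) + 2 - 1 / (4 * ((p : ℝ) + 3) ^ 2)) * A := by
  have hp0 : (0 : ℝ) ≤ p := Nat.cast_nonneg p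
  set b : ℝ := (p : ℝ) + 3 with hb
  have hb3 : 3 ≤ b := by linarith
  have hp2 : (p : ℝ) + 2 = b - 1 := by rw [hb]; ring
  have hp : (p : ℝ) = b - 3 := by rw [hb]; ring
  rw [hp2] at *
  rw [hp] at h3
  have hε0 : 0 < ε := by rw [hε]; positivity
  have hεb : ε * (16 * b ^ 3) = 1 := by rw [hε]; field_simp
  set q : ℝ := 1 / (16 * b ^ 2) with hq
  have hq0 : 0 < q := by positivity
  have hεq : ε * b = q := by rw [hε, hq]; field_simp
  have hq4 : 1 / (4 * b ^ 2) = 4 * q := by rw [hq]; field_simp; norm_num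
  have hqb : 1 / b ^ 2 = 16 * q := by rw [hq]; field_simp
  have hsq : s ≤ q / 8 := by
    rw [hq]
    rw [div_div, le_div_iff₀ (by positivity)]
    linarith
  -- lower bound of `lo`
  have r1 : (b - 1) * hi ≤ (b - 3) * A + ε * A := by linarith
  have r2 : (b - 1) * lo ≥ (2 - b * ε) * A := by
    have : (b - 1) * lo = (b - 1) * N - (b - 1) * hi := by rw [← h9]; ring
    have r3 : (b - 1) * ((1 - ε) * A) ≤ (b - 1) * N := mul_le_mul_of_nonneg_left h1 (by linarith)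
    rw [this]
    nlinarith
  have hbε : b * ε = q := by rw [mul_comm]; exact hεq
  rw [hbε] at r2
  have hq1 : q ≤ 1 / 16 := by
    rw [hq]
    apply one_div_le_one_div_of_le (by norm_num)
    nlinarith
  have r4 : 1 / b * lo ≥ 16 * q * A := by
    have hb0 : 0 < b := by linarith
    have r5 : lo ≥ 1 / b * A := by
      have r6 : A ≤ (b - 1) * lo := by
        have : (2 - q) * A ≥ A := by nlinarith
        linarith
      have hlo : 0 ≤ lo := by
        by_contra hneg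
        push Not at hneg
        have : (b - 1) * lo < 0 := mul_neg_of_pos_of_neg (by linarith) hneg
        linarith
      rw [ge_iff_le, one_div, inv_mul_le_iff₀ hb0]
      nlinarith
    calc 1 / b * lo ≥ 1 / b * (1 / b * A) := mul_le_mul_of_nonneg_left r5 (by positivity)
      _ = 1 / b ^ 2 * A := by field_simp
      _ = 16 * q * A := by rw [hqb]
  have r7 : (b - 1) * N ≤ (b - 1) * ((1 + ε) * A) := mul_le_mul_of_nonneg_left h2 (by linarith)
  have r8 : (b - 1) * (1 - f) * N ≤ (b - 1) * (1 - f) * ((1 + ε) * A) :=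
    mul_le_mul_of_nonneg_left h2 (mul_nonneg (by linarith) (by linarith))
  have r9 : (b - 1) * (1 - f) * (ε * A) ≤ q * A := by
    have e1 : (b - 1) * (1 - f) ≤ b := by nlinarith
    have e2 : (b - 1) * (1 - f) * (ε * A) ≤ b * (ε * A) :=
      mul_le_mul_of_nonneg_right e1 (by positivity)
    calc _ ≤ b * (ε * A) := e2
      _ = b * ε * A := by ring
      _ = q * A := by rw [hbε]
  have r10 : (b - 1) * (ε * A) ≤ q * A := by
    calc (b - 1) * (ε * A) ≤ b * (ε * A) := mul_le_mul_of_nonneg_right (by linarith) (by positivity)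
      _ = b * ε * A := by ring
      _ = q * A := by rw [hbε]
  have r11 : 3 * (ε * A) ≤ q * A := by
    calc 3 * (ε * A) ≤ b * (ε * A) := mul_le_mul_of_nonneg_right hb3 (by positivity)
      _ = b * ε * A := by ring
      _ = q * A := by rw [hbε]
  have r12 : s * A ≤ q / 8 * A := mul_le_mul_of_nonneg_right hsq hA.le
  rw [hq4]
  have hqA : 0 < q * A := mul_pos hq0 hA
  have e3 : (b - 1) * f * T = f * (b - 1) * T := by ring
  rw [e3]
  have e4 : (b - 1) * (1 - f) * ((1 + ε) * A) =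
      (b - 1) * (1 - f) * A + (b - 1) * (1 - f) * (ε * A) := by ring
  have e5 : (b - 1) * ((1 + ε) * A) = (b - 1) * A + (b - 1) * (ε * A) := by ring
  rw [e4] at r8
  rw [e5] at r7
  linarith

theorem NBG_thm (hG : GCGStmt) (hP : PRFStmt) (hC : CCK0Stmt) (hO : GCO0Stmt) : NBGStmt := by
  intro p r h
  obtain ⟨⟨hp2, hr1, hrp⟩, hf0, hf1, -, -, g4⟩ := hG p r h
  have h0 : Pr0 p 0 r := ⟨Nat.zero_le _, hr1, hrp⟩
  have hp0 : (0 : ℝ) ≤ p := Nat.cast_nonneg p
  have he : 0 < e1 p := by unfold e1; positivity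
  set ε : ℝ := 1 / (16 * ((p : ℝ) + 3) ^ 3) with hε
  have hε0 : 0 < ε := by positivity
  obtain ⟨e₀, he₀, hP1⟩ := hP p ε hε0
  refine ⟨min e₀ (e1 p / 2), lt_min he₀ (by positivity), fun C => ?_⟩
  obtain ⟨a₀, hP2⟩ := hP1 C
  refine ⟨max a₀ 1, fun a ha V _ G e W P U hStr he0 hee hCB z hz hn hnd => ?_⟩
  have ha0 : a₀ ≤ a := le_trans (le_max_left _ _) ha
  have ha1 : 1 ≤ a := le_trans (le_max_right _ _) ha
  have haR : (0 : ℝ) < a := by exact_mod_cast ha1
  obtain ⟨p1, p2, p3, p4, -, -, -⟩ :=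
    hP2 a ha0 G e W P U hStr he0 (hee.trans (min_le_left _ _)) hCB z hz
  obtain ⟨c1, -, -, -⟩ :=
    hC G p 0 r a e C W P U h0 hStr he0 (hee.trans (min_le_right _ _)) hCB z hz
  obtain ⟨o1, o2, -⟩ := hO p 0 r h0
  set X := un P with hX
  have hA : (0 : ℝ) < (a : ℝ) ^ (p + 3) := by positivity
  have hN : (kc G X (p + 3) : ℝ) = ∑ L ∈ clq G X (p + 3), (1 : ℝ) := by
    rw [sum_const, nsmul_eq_mul, mul_one]
    rfl
  set lo : ℝ := ∑ L ∈ clq G X (p + 3), (if (nb G L z).card ≤ p + 1 then (1 : ℝ) else 0) with hlo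
  set hi : ℝ := ∑ L ∈ clq G X (p + 3), (if (nb G L z).card ≤ p + 1 then (0 : ℝ) else 1) with hhi
  have h9 : hi + lo = (kc G X (p + 3) : ℝ) := by
    rw [hlo, hhi, hN, ← sum_add_distrib]
    refine sum_congr rfl fun L _ => ?_
    split_ifs <;> norm_num
  have h8 : ((p : ℝ) + 2) * hi ≤ ∑ L ∈ clq G X (p + 3), ((nb G L z).card : ℝ) := by
    rw [hhi, mul_sum]
    refine sum_le_sum fun L hL => ?_
    split_ifs with hB
    · rw [mul_zero]; exact Nat.cast_nonneg _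
    · rw [mul_one]
      have : p + 2 ≤ (nb G L z).card := by omega
      exact_mod_cast this
  have h7 : 3 * (∑ L ∈ clq G X (p + 3), ((nb G L z).card : ℝ)) + 1 / ((p : ℝ) + 3) * lo ≤
      ((p : ℝ) + 2) * (kc G X (p + 3) : ℝ) +
      2 * (((p : ℝ) + 2) * (1 - ph p r) * (kc G X (p + 3) : ℝ) +
        ph p r * ((p : ℝ) + 2) * TZ G p r X z) := by
    have e0 : ((p : ℝ) + 2) * (kc G X (p + 3) : ℝ) +
        2 * (((p : ℝ) + 2) * (1 - ph p r) * (kc G X (p + 3) : ℝ) +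
          ph p r * ((p : ℝ) + 2) * TZ G p r X z) =
        ∑ L ∈ clq G X (p + 3), (((p : ℝ) + 2) + 2 * (((p : ℝ) + 2) * (1 - ph p r) +
          ph p r * ((p : ℝ) + 2) * ww p r (nb G L z).card)) := by
      unfold TZ
      rw [hN]
      simp only [mul_sum, ← sum_add_distrib]
      refine sum_congr rfl fun L _ => ?_
      ring
    rw [e0, hlo, mul_sum, mul_sum, ← sum_add_distrib]
    refine sum_le_sum fun L hL => ?_
    have hB2 := c1 L hL
    split_ifs with hB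
    · have := g4 _ hB
      linarith
    · have hB3 : (nb G L z).card = p + 2 := by omega
      rw [hB3, o2]
      push_cast
      linarith
  have pw1 : (a : ℝ) ^ (p + 3) = (a : ℝ) ^ (p + 2) * a := by rw [← pow_succ]
  have h3 : ∑ L ∈ clq G X (p + 3), ((nb G L z).card : ℝ) ≤
      p * (a : ℝ) ^ (p + 3) + ε * (a : ℝ) ^ (p + 3) := by
    refine p4.trans ?_
    have : ((nb G X z).card : ℝ) * (a : ℝ) ^ (p + 2) ≤ p * a * (a : ℝ) ^ (p + 2) :=
      mul_le_mul_of_nonneg_right hn (by positivity)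
    rw [pw1]
    linarith
  have h6 : ((nb G X z).card : ℝ) * (a : ℝ) ^ (p + 2) ≤
      ∑ L ∈ clq G X (p + 3), ((nb G L z).card : ℝ) + ε * (a : ℝ) ^ (p + 3) := by linarith
  have hs : s2 p * (128 * ((p : ℝ) + 3) ^ 2) ≤ 1 := by
    have e5 : s2 p * (128 * ((p : ℝ) + 3) ^ 2) = e1 p / 2 := by
      unfold s2
      field_simp
      norm_num
    rw [e5]
    have : e1 p ≤ 1 := by
      unfold e1
      rw [div_le_one (by positivity)]
      have : (1 : ℝ) ≤ ((p : ℝ) + 3) ^ 3 := one_le_pow₀ (by linarith)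
      linarith
    linarith
  have key := NBG_num p ε ((a : ℝ) ^ (p + 3)) (kc G X (p + 3)) _ (TZ G p r X z)
    (((nb G X z).card : ℝ) * (a : ℝ) ^ (p + 2)) lo hi (ph p r) (s2 p) hA hε p1 p2 h3
    h6 hf0 hf1 h7 h8 h9 hs
  have hd : (0 : ℝ) < (a : ℝ) ^ (p + 2) := by positivity
  have hndE : ndz G p r a X z * (a : ℝ) ^ (p + 2) =
      ((nb G X z).card : ℝ) * (a : ℝ) ^ (p + 2) -
        ((p : ℝ) + 2) * (1 - ph p r) * (a : ℝ) ^ (p + 3) -
        ((p : ℝ) + 2) * ph p r * TZ G p r X z + s2 p * (a : ℝ) ^ (p + 3) := by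
    unfold ndz at hnd ⊢
    rw [max_eq_right (le_of_lt ((lt_max_iff.1 hnd).resolve_left (lt_irrefl 0)))]
    unfold Mz
    rw [pw1]
    field_simp
  refine le_of_mul_le_mul_right ?_ hd
  have e8 : (2 * ndz G p r a X z + ((nb G X z).card : ℝ)) * (a : ℝ) ^ (p + 2) =
      3 * (((nb G X z).card : ℝ) * (a : ℝ) ^ (p + 2)) -
        2 * (((p : ℝ) + 2) * (1 - ph p r) * (a : ℝ) ^ (p + 3)) -
        2 * (((p : ℝ) + 2) * ph p r * TZ G p r X z) + 2 * (s2 p * (a : ℝ) ^ (p + 3)) := by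
    rw [add_mul, mul_assoc, hndE]
    ring
  rw [e8]
  refine key.trans (le_of_eq ?_)
  rw [pw1]
  ring

end Pool.JB7
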