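import Pool.Agent.H7.JB.Stmts
import Pool.Agent.H67.GU.GGP

/-!
# Board jb14, row GGG: two good strangers owe nothing
-/

set_option autoImplicit false

open Finset

namespace Pool.JB7

open Pool.Agent.H23.KT Pool.Agent.H46.KW Pool.KQ Pool.GT7 Pool.GU7 Pool.HZ7

theorem GGG_e1 (p : ℕ) (hp : 2 ≤ p) : 0 < e1 p ∧ ((p : ℝ) + 2) * e1 p ≤ 1 / 400 := by
  have hp2 : (2 : ℝ) ≤ p := by exact_mod_cast hp
  constructor
  · unfold e1
    positivity
  · unfold e1
    rw [mul_one_div, div_le_div_iff₀ (by positivity) (by norm_num)]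
    have h5 : (5 : ℝ) ≤ (p : ℝ) + 3 := by linarith
    have h25 : (25 : ℝ) ≤ ((p : ℝ) + 3) ^ 2 := by nlinarith
    have : ((p : ℝ) + 3) ^ 3 = ((p : ℝ) + 3) * ((p : ℝ) + 3) ^ 2 := by ring
    rw [this]
    nlinarith

theorem GGG_thm (hG : GCGStmt) (hSTG : Pool.KR.STGStmt) (hK : CCK0Stmt) : GGGStmt := by
  intro p r hP
  obtain ⟨hW, hφ0, hφ1, hφ2, -, -⟩ := hG p r hP
  obtain ⟨hp2, hr1, hrp⟩ := hW
  obtain ⟨hE0, hE⟩ := GGG_e1 p hp2
  have hp2' : (2 : ℝ) ≤ p := by exact_mod_cast hp2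
  have hrp' : (r : ℝ) ≤ p := by exact_mod_cast hrp
  obtain ⟨e₀, he0, he1, H⟩ := GGP_stg hSTG p r (by omega)
  refine ⟨min e₀ (e1 p / 2), lt_min he0 (by linarith), min_le_right _ _, ?_⟩
  intro C C₁
  obtain ⟨a₀, ha₀, H2⟩ := H C C₁
  have hs2 : 0 < s2 p := by
    unfold s2
    positivity
  have hs2' : s2 p ≤ 1 / 4 := by
    unfold s2
    rw [div_le_iff₀ (by positivity)]
    have h1 : e1 p ≤ 1 := by nlinarith
    have h2 : (1 : ℝ) ≤ ((p : ℝ) + 3) ^ 2 := by nlinarith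
    linarith
  obtain ⟨a₁, ha₁⟩ := exists_nat_ge (8 * (2 * |C|))
  refine ⟨max (max a₀ a₁) 2, ?_⟩
  intro a ha V _ _ G hG e hee hee0 v z P P' U U' hS hS' hz hk
  have ha2 : 2 ≤ a := le_trans (le_max_right _ _) ha
  have haa : a₀ ≤ a := le_trans (le_trans (le_max_left _ _) (le_max_left _ _)) ha
  have hab : a₁ ≤ a := le_trans (le_trans (le_max_right _ _) (le_max_left _ _)) ha
  have ha2' : (2 : ℝ) ≤ a := by exact_mod_cast ha2
  have hab' : (a₁ : ℝ) ≤ a := by exact_mod_cast hab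
  have hC8 : 8 * (2 * |C|) ≤ (a : ℝ) := le_trans ha₁ hab'
  have hee1 : e ≤ e₀ := le_trans hee0 (min_le_left _ _)
  have hee2 : e ≤ e1 p / 2 := le_trans hee0 (min_le_right _ _)
  have hco := H2 a haa G hG e hee hee1 v z P U hS hz hk
  have ha1 : 1 ≤ a := by omega
  have hlow : ((p : ℝ) + 2 - 1 / 200) * a ≤ ((p : ℝ) + 2) * ((1 - e - e1 p) * a) := by
    have h1 : ((p : ℝ) + 2) * e ≤ 1 / 400 :=
      (mul_le_mul_of_nonneg_left (by linarith) (by linarith)).trans hE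
    have h2 : (p : ℝ) + 2 - 1 / 200 ≤ ((p : ℝ) + 2) * (1 - e - e1 p) := by linarith
    calc ((p : ℝ) + 2 - 1 / 200) * a ≤ ((p : ℝ) + 2) * (1 - e - e1 p) * a :=
          mul_le_mul_of_nonneg_right h2 (by linarith)
      _ = _ := by ring
  obtain ⟨hsub, -⟩ := GGP_core (r := r) hG.deg ha1 hS hS' hz hco (by nlinarith) (by nlinarith)
  have hn : ((nb G (un P) z).card : ℝ) ≤ 2 * |C| := by
    have h1 : nb G (un P) z ⊆ U ∪ U' := by
      refine subset_trans ?_ hsub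
      intro y hy
      rw [mem_nb] at hy
      obtain ⟨hy1, hy2⟩ := hy
      unfold Pool.KR.co
      rw [mem_nb]
      refine ⟨?_, hy2⟩
      refine (hS.cov y).2 (Or.inr ?_)
      unfold un at hy1
      rw [mem_biUnion] at hy1
      obtain ⟨i, -, hi⟩ := hy1
      exact ⟨i, hi⟩
    have h2 := card_le_card h1
    have h3 := card_union_le U U'
    have h4 : ((nb G (un P) z).card : ℝ) ≤ (U.card : ℝ) + (U'.card : ℝ) := by
      exact_mod_cast h2.trans h3
    have h5 := hS.cU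
    have h6 := hS'.cU
    have h7 := le_abs_self C
    linarith
  have hTZ : 0 ≤ TZ G p r (un P) z := by
    have hcb : CB G (nb G univ v) (p + 3) := CB.nb hG.cb (mem_univ v)
    obtain ⟨-, -, -, h4⟩ := hK G p 0 r a e C (nb G univ v) P U ⟨Nat.zero_le _, hr1, hrp⟩ hS hee
      hee2 hcb z hz
    have h5 : (0 : ℝ) ≤ cc G p (un P) (p + 2) z := Nat.cast_nonneg _
    have h6 : (0 : ℝ) ≤ cc G p (un P) (p + 1) z := Nat.cast_nonneg _
    linarith
  have hM : 0 ≤ Mz p r a := by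
    unfold Mz
    positivity
  have hMT : 0 ≤ Mz p r a * TZ G p r (un P) z := mul_nonneg hM hTZ
  unfold ndz
  refine max_eq_left ?_
  have h1 : 1 / 2 * (a : ℝ) ≤ ((p : ℝ) + 2) * (1 - ph p r) * a :=
    mul_le_mul_of_nonneg_right hφ2.le (by linarith)
  have h2 : s2 p * (a : ℝ) ≤ 1 / 4 * a := mul_le_mul_of_nonneg_right hs2' (by linarith)
  linarith

end Pool.JB7
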